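import Pool.Agent.Q173.NL.Poly

/-!
# Polynomial relations between consecutive ordinates of the zeros of the zeta function

Let `0 < γ_1 ≤ γ_2 ≤ …` be the ordinates of all nontrivial zeros of `ζ` in the upper half plane, with
multiplicity.  No hypothesis on the zeros is assumed.  For every `k` there is `ε > 0` such that for
every nondegenerate real polynomial `P` in `k` variables the relation `P (γ_n, …, γ_{n+k-1}) = 0`
fails for at least `ε N` of the indices `n ≤ N`, if `N` is large; the proportion `ε` does not
depend on `P`, not even on its degree.  Moreover `|P (γ_n, …, γ_{n+k-1})|` is at least a constant times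
`γ_n ^ a / log γ_n` for these `n`, where `a` is the degree in `T` of `P (T + X_0, …, T + X_{k-1})`.
Nondegenerate means that the coefficient of `T ^ a`, a polynomial in the `X_j`, has a nonzero term of
degree `0` or `1`.  This is so for all nonzero polynomials in one variable, for all nonconstant
polynomials of degree one, and for every polynomial whose leading form has a nonzero partial
derivative at `(1, …, 1)`; for the latter the result is uniform over all `P` of degree at most
`m` with coefficients up to `N ^ θ`, `θ < 1`.

Idea of the proof.  The gaps are small in comparison with `γ_n`, so that a polynomial relation implies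
an approximate linear relation between consecutive ordinates.  If such a relation held for almost
all indices in a block, then (Bézout's identity for the polynomial of the recurrence) the unfolded
ordinates would be the sum of a tight sequence and of a locally linear one of slope one, and the
distance to the `r`-th neighbour would differ from `r` by a tight amount, uniformly in `r`.  This
contradicts the central limit theorem for these distances, with variance `π⁻² log r`, which holds
without the Riemann hypothesis.
-/

set_option autoImplicit false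

open Filter

namespace Pool.Agent.Results.MP_ec260d_nt.ConsecutiveOrdinates

/-- multiplicity of `s` as a zero of the Riemann zeta function (order of vanishing at `s`) -/
noncomputable def zmult (s : ℂ) : ℕ := analyticOrderNatAt riemannZeta s

/-- the number of nontrivial zeros of `ζ` with ordinate in `(0, t]`, with multiplicity -/
noncomputable def NZ (t : ℝ) : ℕ :=
  ∑ᶠ s ∈ {s : ℂ | riemannZeta s = 0 ∧ 0 < s.re ∧ s.re < 1 ∧ 0 < s.im ∧ s.im ≤ t}, zmult s

/-- for `n ≥ 1`: the `n`-th positive ordinate `γ n` of a nontrivial zero of `ζ`, the ordinates being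
listed in nondecreasing order and repeated according to multiplicity -/
noncomputable def γ (n : ℕ) : ℝ := sInf {t : ℝ | n ≤ NZ t}

/-- `P (T + X_0, …, T + X_{k-1})` as a polynomial in `T` with coefficients in `ℝ[X_0, …, X_{k-1}]` -/
noncomputable def shifted {k : ℕ} (P : MvPolynomial (Fin k) ℝ) :
    Polynomial (MvPolynomial (Fin k) ℝ) :=
  MvPolynomial.aeval (fun j => Polynomial.X + Polynomial.C (MvPolynomial.X j)) P

/-- `P` is nondegenerate if the coefficient of the highest power of `T` in
`P (T + X_0, …, T + X_{k-1})` has a nonzero constant term or a nonzero coefficient at some `X_j` -/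
def Nondegenerate {k : ℕ} (P : MvPolynomial (Fin k) ℝ) : Prop :=
  MvPolynomial.coeff 0 (shifted P).leadingCoeff ≠ 0 ∨
    ∃ j : Fin k, MvPolynomial.coeff (Finsupp.single j 1) (shifted P).leadingCoeff ≠ 0

/-- the `j`-th partial derivative at `(1, …, 1)` of the homogeneous component of degree `m` of `P` -/
noncomputable def grad {k : ℕ} (m : ℕ) (P : MvPolynomial (Fin k) ℝ) (j : Fin k) : ℝ :=
  MvPolynomial.eval (fun _ => 1)
    (MvPolynomial.pderiv j (MvPolynomial.homogeneousComponent m P))

/-- **Theorem.** For every `k` there is `ε > 0` with the following two properties.  For every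
nondegenerate real polynomial `P` in `k` variables there is `c > 0` such that for all large `N` at
least `ε N` indices `n ≤ N` satisfy
`|P (γ_n, …, γ_{n+k-1})| ≥ c γ_n ^ a / log γ_n`, where `a` is the degree of `P (T + X_0, …, T + X_{k-1})` in
`T`.  For all `m ≥ 1` and `θ < 1`, for all large `N`, for all real polynomials `P` in `k` variables of
degree at most `m` and all `i` for which the `i`-th partial derivative `D` at `(1, …, 1)` of the
homogeneous component of degree `m` is nonzero and the coefficients of `P` are at most
`|D| N ^ θ` in modulus, at least `ε N` indices `n ≤ N` satisfy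
`|P (γ_n, …, γ_{n+k-1})| ≥ (ε / m) |D| γ_n ^ (m - 1) / log γ_n`. -/
theorem result (k : ℕ) : ∃ ε : ℝ, 0 < ε ∧
    (∀ P : MvPolynomial (Fin k) ℝ, Nondegenerate P →
      ∃ c : ℝ, 0 < c ∧ ∀ᶠ N : ℕ in atTop,
        ε * N ≤ ({n : ℕ | 1 ≤ n ∧ n ≤ N ∧ 3 ≤ γ n ∧
          c * γ n ^ (shifted P).natDegree / Real.log (γ n) ≤
            |MvPolynomial.eval (fun j : Fin k => γ (n + j)) P|}.ncard : ℝ)) ∧
    (∀ m : ℕ, 1 ≤ m → ∀ θ : ℝ, θ < 1 → ∀ᶠ N : ℕ in atTop,
      ∀ P : MvPolynomial (Fin k) ℝ, P.totalDegree ≤ m → ∀ i : Fin k, grad m P i ≠ 0 →
      (∀ s, |MvPolynomial.coeff s P| ≤ |grad m P i| * (N : ℝ) ^ θ) →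
      ε * N ≤ ({n : ℕ | 1 ≤ n ∧ n ≤ N ∧ 3 ≤ γ n ∧
        ε / m * |grad m P i| * γ n ^ (m - 1) / Real.log (γ n) ≤
          |MvPolynomial.eval (fun j : Fin k => γ (n + j)) P|}.ncard : ℝ)) :=
  Pool.Agent.Q173.NL.poly k

end Pool.Agent.Results.MP_ec260d_nt.ConsecutiveOrdinates
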