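import Pool.Agent.Q173.JD.Pol

/-!
# The zeros of zeta near `Q_1(t), …, Q_k(t)` are statistically independent for different polynomials

Let `N(t)` be the number of nontrivial zeros of zeta with ordinate in `(0, t]`, with multiplicity, and
`M(t) = (t / 2π) log (t / 2π) - t / 2π`.  Let `Q_1, …, Q_k` be distinct nonconstant real polynomials with positive leading
coefficients, at most one of them of degree one, such that for each `i ≥ 1` the coefficients of `x^i` are rational multiples
of one real number `θ_i` (rational coefficients, arbitrary real constant terms; or monomials `θ_i x^i` of different degrees).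
Unconditionally, for `t` uniformly distributed in `(T, 2T]`, the normalised displacements
`π (N - M)(Q_j(t)) / √(log log T / 2)` are asymptotically independent standard normal variables, and every nontrivial
real linear combination `∑ c_j (N - M)(Q_j(t))` is asymptotically normal with variance `∑ c_j² log log T / (2π²)`: the
positions of the ordinates near `t` and near the values of polynomials at `t` are not correlated.

Idea of the proof.  In the mean `π (N - M)` is approximated by the imaginary part of the sum of `p^(-1/2-it)` over the
primes `p ≤ T^(1 / log log T)` (Selberg's method with his density theorem), also along the curves `Q_j(t)`.  Moments of linear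
combinations of these sums at the arguments `Q_j(t)` agree up to a power of `T` with those of a random model, in which the
numbers `p^(i θ_l t^l / d)` are independent uniform random points of the circle for different `p` and `l`: the exponential
integral of a polynomial whose coefficients are combinations of logarithms of small primes is small by van der Corput's first
derivative test.  In the model different characters are orthogonal.
-/

open Filter Topology

namespace Pool.Agent.Results.MP_ec260d_nt.JointLawAtPolynomials

/-- the number of nontrivial zeros of zeta with ordinate in `(0, t]`, counted with multiplicity -/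
noncomputable def N (t : ℝ) : ℕ :=
  ∑ᶠ s ∈ {s : ℂ | riemannZeta s = 0 ∧ 0 < s.re ∧ s.re < 1 ∧ 0 < s.im ∧ s.im ≤ t}, analyticOrderNatAt riemannZeta s

/-- the main term of the Riemann-von Mangoldt formula -/
noncomputable def M (t : ℝ) : ℝ := t / (2 * Real.pi) * Real.log (t / (2 * Real.pi)) - t / (2 * Real.pi)

/-- the displacement -/
noncomputable def D (t : ℝ) : ℝ := N t - M t

/-- the mass of `(a, b)` under the standard normal law -/
noncomputable def normalMass (a b : ℝ) : ℝ := ∫ x in a..b, Real.exp (-x ^ 2 / 2) / Real.sqrt (2 * Real.pi)

/-- the proportion of the `t` in `(T, 2T]` with the property `P` -/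
noncomputable def proportion (T : ℝ) (P : ℝ → Prop) : ℝ :=
  (MeasureTheory.volume {t : ℝ | T < t ∧ t ≤ 2 * T ∧ P t}).toReal / T

lemma D_eq (t : ℝ) : Pool.Agent.Q173.JL.Dd t = Real.pi * D t := by
  unfold Pool.Agent.Q173.JL.Dd Pool.Agent.Q173.JL.MM D M
  rw [← Pool.Agent.Q173.NL.NZ_eq]
  rfl

/-- **Theorem.** Let `Q_1, …, Q_k` be distinct nonconstant real polynomials with positive leading coefficients, at most one
of degree one, such that for each `i ≥ 1` their coefficients of `x^i` are rational multiples of one real number.  For `t` in
`(T, 2T]` and `T → ∞` the `k` numbers `π D(Q_j(t)) / √(log log T / 2)` are asymptotically independent standard normal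
variables, and for every real vector `c ≠ 0` the number `π (∑ c_j D(Q_j(t))) / √(∑ c_j² · log log T / 2)` is asymptotically
standard normal. -/
theorem result (k : ℕ) (Q : Fin k → Polynomial ℝ) (hinj : Function.Injective Q) (hdeg : ∀ j, 1 ≤ (Q j).natDegree)
    (_hone : ∀ i j, (Q i).natDegree = 1 → (Q j).natDegree = 1 → i = j) (hlead : ∀ j, 0 < (Q j).leadingCoeff)
    (hrat : ∀ i, 1 ≤ i → ∃ θ : ℝ, ∀ j, ∃ r : ℚ, (Q j).coeff i = r * θ) :
    (∀ a b : Fin k → ℝ, (∀ j, a j < b j) →
      Tendsto (fun T : ℝ => proportion T fun t => ∀ j,
        a j < Real.pi * D ((Q j).eval t) / Real.sqrt (Real.log (Real.log T) / 2) ∧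
        Real.pi * D ((Q j).eval t) / Real.sqrt (Real.log (Real.log T) / 2) < b j) atTop
        (𝓝 (∏ j, normalMass (a j) (b j)))) ∧
    (∀ c : Fin k → ℝ, (∃ j, c j ≠ 0) → ∀ a b : ℝ, a < b →
      Tendsto (fun T : ℝ => proportion T fun t =>
        a < Real.pi * (∑ j, c j * D ((Q j).eval t)) / Real.sqrt ((∑ j, c j ^ 2) * (Real.log (Real.log T) / 2)) ∧
        Real.pi * (∑ j, c j * D ((Q j).eval t)) / Real.sqrt ((∑ j, c j ^ 2) * (Real.log (Real.log T) / 2)) < b) atTop
        (𝓝 (normalMass a b))) :=
  Pool.Agent.Q173.JD.out (fun j t => (Q j).eval t) (fun j => (Q j).continuous.measurable) D_eq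
    (Pool.Agent.Q173.JD.poly_char Q hinj hdeg hlead hrat)

end Pool.Agent.Results.MP_ec260d_nt.JointLawAtPolynomials
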