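import Pool.Agent.Q173.JD.Pre

/-!
# The preimages of the ordinates under several polynomials

Let `N(t)` be the number of nontrivial zeros of zeta with ordinate in `(0, t]`, with multiplicity,
`M(t) = (t / 2π) log (t / 2π) - t / 2π`, `D = N - M`, and `γ_1 ≤ γ_2 ≤ …` the positive ordinates, repeated according to
multiplicity.

An algebraic relation `γ = Q(γ')` between two ordinates says that the (large) real preimage `q(γ)` of `γ` under the
polynomial `Q` is an ordinate; then `D(q(γ))` is the difference between the index of `γ'` and the expected value of this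
index.  Unconditionally, for `γ` uniformly distributed among the ordinates in `(T, 2T]`, the normalised displacements
`π D(q_j(γ)) / √(log log T / 2)` at the preimages under several polynomials `Q_1, …, Q_k` are asymptotically independent
standard normal variables, for instance for arbitrary real polynomials of distinct degrees `≥ 1` with positive leading
coefficients; for polynomials of the same degree `m` the quotients of the leading coefficients have to be `m`-th powers
of rational numbers, and the first two coefficients of the polynomials have to determine them.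

Idea of the proof.  `q_j(t)` is a power `(t / a_j)^{1/m_j}` plus a constant up to `O(t^{-c})`; the phases `q_j(t) log p`
over the small primes are uniformly distributed on a torus, as the derivatives of nontrivial combinations of the powers
`t^{1/m}` have large values outside of few short intervals; the remaining primes and the error terms are small in mean
square, the displacements at the arguments `q_j(t)` are transferred from `t` uniform in `(T, 2T]` to the ordinates by the
number variance.
-/

open Filter Topology

namespace Pool.Agent.Results.MP_ec260d_nt.LawAtPreimagesOfOrdinates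

/-- the number of nontrivial zeros of zeta with ordinate in `(0, t]`, counted with multiplicity -/
noncomputable def N (t : ℝ) : ℕ :=
  ∑ᶠ s ∈ {s : ℂ | riemannZeta s = 0 ∧ 0 < s.re ∧ s.re < 1 ∧ 0 < s.im ∧ s.im ≤ t}, analyticOrderNatAt riemannZeta s

/-- for `n ≥ 1`: the `n`-th positive ordinate `γ n` of a nontrivial zero of zeta, the ordinates being listed in
nondecreasing order and repeated according to multiplicity -/
noncomputable def γ (n : ℕ) : ℝ := sInf {t : ℝ | n ≤ N t}

/-- the main term of the Riemann-von Mangoldt formula -/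
noncomputable def M (t : ℝ) : ℝ := t / (2 * Real.pi) * Real.log (t / (2 * Real.pi)) - t / (2 * Real.pi)

/-- the displacement -/
noncomputable def D (t : ℝ) : ℝ := N t - M t

/-- the mass of `(a, b)` under the standard normal law -/
noncomputable def normalMass (a b : ℝ) : ℝ := ∫ x in a..b, Real.exp (-x ^ 2 / 2) / Real.sqrt (2 * Real.pi)

/-- the proportion of the ordinates in `(T, 2T]` (with multiplicity) with the property `P` -/
noncomputable def proportion (T : ℝ) (P : ℝ → Prop) : ℝ :=
  ({n : ℕ | N T < n ∧ n ≤ N (2 * T) ∧ P (γ n)}.ncard : ℝ) / ((N (2 * T) : ℝ) - N T)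

/-- for `γ` running over the ordinates in `(T, 2T]` and `T → ∞` the numbers `π D(q_j(γ)) / √(log log T / 2)` are
asymptotically independent standard normal variables, and for every real vector `c ≠ 0` the number
`π (∑ c_j D(q_j(γ))) / √(∑ c_j² · log log T / 2)` is asymptotically standard normal -/
def Independent {k : ℕ} (q : Fin k → ℝ → ℝ) : Prop :=
  (∀ a b : Fin k → ℝ, (∀ j, a j < b j) →
    Tendsto (fun T : ℝ => proportion T fun t => ∀ j,
      a j < Real.pi * D (q j t) / Real.sqrt (Real.log (Real.log T) / 2) ∧
      Real.pi * D (q j t) / Real.sqrt (Real.log (Real.log T) / 2) < b j) atTop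
      (𝓝 (∏ j, normalMass (a j) (b j)))) ∧
  (∀ c : Fin k → ℝ, (∃ j, c j ≠ 0) → ∀ a b : ℝ, a < b →
    Tendsto (fun T : ℝ => proportion T fun t =>
      a < Real.pi * (∑ j, c j * D (q j t)) / Real.sqrt ((∑ j, c j ^ 2) * (Real.log (Real.log T) / 2)) ∧
      Real.pi * (∑ j, c j * D (q j t)) / Real.sqrt ((∑ j, c j ^ 2) * (Real.log (Real.log T) / 2)) < b) atTop
      (𝓝 (normalMass a b)))

lemma D_eq (t : ℝ) : Pool.Agent.Q173.JL.Dd t = Real.pi * D t := by
  unfold Pool.Agent.Q173.JL.Dd Pool.Agent.Q173.JL.MM D M
  rw [← Pool.Agent.Q173.NL.NZ_eq]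
  rfl

lemma prop_eq {T : ℝ} (hT : 0 ≤ T) (P : ℝ → Prop) [DecidablePred fun n => P (SG.ord n)] :
    (((Pool.Agent.Q173.JD.SO T).filter fun n => P (SG.ord n)).card : ℝ) / (Pool.Agent.Q173.JD.SO T).card =
      proportion T P := by
  rw [Pool.Agent.Q173.JD.SO_card T hT]
  unfold proportion
  have e : {n : ℕ | N T < n ∧ n ≤ N (2 * T) ∧ P (γ n)} =
      ((Pool.Agent.Q173.JD.SO T).filter fun n => P (SG.ord n) : Finset ℕ) := by
    ext n
    simp only [Set.mem_ofPred_eq, Finset.coe_filter, Pool.Agent.Q173.JD.SO, Finset.mem_Ioc, and_assoc]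
    exact Iff.rfl
  rw [e, Set.ncard_coe_finset]
  rfl

/-- only large ordinates matter -/
lemma prop_congr {T : ℝ} (P P' : ℝ → Prop) (h : ∀ t, T < t → (P t ↔ P' t)) : proportion T P = proportion T P' := by
  unfold proportion
  congr 3
  ext n
  simp only [Set.mem_ofPred_eq]
  refine and_congr_right fun h1 => and_congr_right fun h2 => h _ ?_
  have h3 : n ∈ Pool.Agent.Q173.JD.SO T := by
    simp only [Pool.Agent.Q173.JD.SO, Finset.mem_Ioc]
    exact ⟨h1, h2⟩
  exact (Pool.Agent.Q173.JD.mem_SO h3).2.1

/-- **Theorem.** Let `Q_1, …, Q_k` be real polynomials of degree at least one with positive leading coefficients, such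
that for polynomials of the same degree `m` the quotient of the leading coefficients is the `m`-th power of a rational
number, and that different polynomials differ in the degree or in one of the first two coefficients.  Let `q_j(t)` be the
inverse function of `Q_j` for large `t`: `q_j(t) → ∞` and `Q_j(q_j(t)) = t` for all large `t`.  Then the displacements
`D(q_j(γ))`, `γ` running over the ordinates in `(T, 2T]`, are asymptotically independent and normal. -/
theorem result (k : ℕ) (Q : Fin k → Polynomial ℝ) (hd : ∀ j, 1 ≤ (Q j).natDegree) (hl : ∀ j, 0 < (Q j).leadingCoeff)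
    (hrat : ∀ i j, (Q i).natDegree = (Q j).natDegree →
      ∃ r : ℚ, (Q i).leadingCoeff = (r : ℝ) ^ (Q i).natDegree * (Q j).leadingCoeff)
    (hinj : ∀ i j, (Q i).natDegree = (Q j).natDegree → (Q i).leadingCoeff = (Q j).leadingCoeff →
      (Q i).nextCoeff = (Q j).nextCoeff → i = j)
    (q : Fin k → ℝ → ℝ) (hq : ∀ j, Tendsto (q j) atTop atTop) (hinv : ∀ j, ∀ᶠ t in atTop, (Q j).eval (q j t) = t) :
    Independent q := by
  choose y0 t0 hIV using fun j => Pool.Agent.Q173.JD.iv_ex (hd j) (hl j) (hq j) (hinv j)
  have hm : ∀ j, Measurable (Pool.Agent.Q173.JD.qh (q j) (t0 j)) := fun j => ((hIV j).cont (hl j)).measurable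
  obtain ⟨h1, h2⟩ := Pool.Agent.Q173.JD.outO (fun j t => Pool.Agent.Q173.JD.qh (q j) (t0 j) t) hm D_eq
    (Pool.Agent.Q173.JD.ordq_char hm (fun j => (hIV j).up (hd j) (hl j))
      (Pool.Agent.Q173.JD.inv_char Q hd hl hrat hinj hIV))
  have hev : ∀ᶠ T : ℝ in atTop, ∀ j, t0 j ≤ T := eventually_all.2 fun j => eventually_ge_atTop _
  have he : ∀ T : ℝ, (∀ j, t0 j ≤ T) → ∀ t, T < t → ∀ j, Pool.Agent.Q173.JD.qh (q j) (t0 j) t = q j t :=
    fun T hT t ht j => Pool.Agent.Q173.JD.qh_eq _ ((hT j).trans ht.le)
  refine ⟨fun a b hab => (h1 a b hab).congr' ?_, fun c hc a b hab => (h2 c hc a b hab).congr' ?_⟩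
  · filter_upwards [eventually_ge_atTop 0, hev] with T hT hT0
    rw [prop_eq hT fun t => ∀ j,
      a j < Real.pi * D (Pool.Agent.Q173.JD.qh (q j) (t0 j) t) / Real.sqrt (Real.log (Real.log T) / 2) ∧
      Real.pi * D (Pool.Agent.Q173.JD.qh (q j) (t0 j) t) / Real.sqrt (Real.log (Real.log T) / 2) < b j]
    refine prop_congr _ _ fun t ht => ?_
    simp only [he T hT0 t ht]
  · filter_upwards [eventually_ge_atTop 0, hev] with T hT hT0
    rw [prop_eq hT fun t =>
      a < Real.pi * (∑ j, c j * D (Pool.Agent.Q173.JD.qh (q j) (t0 j) t)) /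
        Real.sqrt ((∑ j, c j ^ 2) * (Real.log (Real.log T) / 2)) ∧
      Real.pi * (∑ j, c j * D (Pool.Agent.Q173.JD.qh (q j) (t0 j) t)) /
        Real.sqrt ((∑ j, c j ^ 2) * (Real.log (Real.log T) / 2)) < b]
    refine prop_congr _ _ fun t ht => ?_
    simp only [he T hT0 t ht]

end Pool.Agent.Results.MP_ec260d_nt.LawAtPreimagesOfOrdinates
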