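import Pool.Agent.Q5.ZP.Zeta
import Pool.Agent.Q5.AI.Mono

/-!
# Algebraic independence of the ordinates of the zeros of zeta and the error term at powers of `x`

The algebraic independence of the ordinates is equivalent (with RH) to a statement on the joint distribution of one
error term in prime number theory at the points `x^a`, `a` running through the monomials in the ordinates. Their linear
independence over a field `K` of real numbers corresponds to the points `x^a`, `a ∈ K`.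
-/

set_option autoImplicit false

open MeasureTheory Filter Topology Set Complex

namespace Pool.Agent.Results.MP_ec260d_nt.PowersOfX

/-- `Γ`, the set of the positive ordinates of the zeros -/
def Γ : Set ℝ := {γ : ℝ | 0 < γ ∧ ∃ β : ℝ, riemannZeta (β + γ * I) = 0}

/-- the multiplicity of the zero `1/2 + it` (`0` if it is not a zero) -/
noncomputable def mult (t : ℝ) : ℕ := (analyticOrderAt riemannZeta (1 / 2 + t * I)).toNat

/-- `R(x) = ∑_{p^k ≤ x} 1/(k p^{k/2})`; the index `z = (p, k - 1)` -/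
noncomputable def primeSum (x : ℝ) : ℝ :=
  ∑ᶠ (z : Nat.Primes × ℕ) (_ : (z.1 : ℝ) ^ (z.2 + 1) ≤ x),
    1 / (((z.2 : ℝ) + 1) * √(z.1 : ℝ) ^ (z.2 + 1))

/-- the main term `∫_0^{log x} 2 sinh(v/2)/v dv = ∫_1^x (1 - 1/y) dy/(√y log y)` -/
noncomputable def mainTerm (x : ℝ) : ℝ := ∫ v in (0 : ℝ)..Real.log x, 2 * Real.sinh (v / 2) / v

/-- the constant `-ζ(1/2)` -/
noncomputable def A₀ : ℝ := -(riemannZeta (1 / 2)).re

/-- the error term `E(x) = log x · (log(-ζ(1/2)) - R(x) + ∫_0^{log x} 2 sinh(v/2)/v dv)` for `x > e`, and `E(x) = 0`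
for `x ≤ e` -/
noncomputable def E (x : ℝ) : ℝ :=
  if Real.exp 1 < x then Real.log x * (Real.log A₀ - primeSum x + mainTerm x) else 0

/-- `(log X)⁻¹ ∫_e^X E(x)² dx/x` is bounded for large `X` -/
def BoundedMeanSquare : Prop :=
  ∃ B : ℝ, ∀ᶠ X : ℝ in atTop, ∫ x in Real.exp 1..X, E x ^ 2 / x ≤ B * Real.log X

/-- the mean of `exp (i ∑_{i ∈ s} ∑_j ξ_{ij} E((x e^{h_{ij}})^{a_i}))` with respect to `dx/x` over `[e, X]` -/
noncomputable def charMean {ι : Type} (a : ι → ℝ) (s : Finset ι) {k : ℕ} (h ξ : ι → Fin k → ℝ) (X : ℝ) : ℂ :=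
  (∫ x in Real.exp 1..X,
    exp (((∑ i ∈ s, ∑ j, ξ i j * E ((x * Real.exp (h i j)) ^ (a i)) : ℝ) : ℂ) * I) / x) / Real.log X

/-- the Bessel function `J₀(x) = ∑ (-(x/2)²)^k/(k!)²` -/
noncomputable def J0 (x : ℝ) : ℝ := ∑' k : ℕ, (-(x / 2) ^ 2) ^ k / ((k.factorial : ℝ) ^ 2)

/-- the value of a monomial `κ` in the ordinates (exponents `κ γ`, finitely many nonzero) -/
noncomputable def val (κ : Γ →₀ ℕ) : ℝ := κ.prod fun γ n => (γ : ℝ) ^ n

open Classical in
/-- `m_γ/γ` if `μ = κ γ` for some `γ ∈ Γ` (then `γ = val μ/val κ`), and `0` otherwise -/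
noncomputable def coef (κ μ : Γ →₀ ℕ) : ℝ :=
  if ∃ γ : Γ, μ = κ + Finsupp.single γ 1 then (mult (val μ / val κ) : ℝ) / (val μ / val κ) else 0

/-- **The random model** for the functions `E(x^(val κ))`, `κ` running through all monomials (`1` included): their
frequencies are the values of the monomials `μ ≠ 1`, and the phases at the DISTINCT monomials `μ` are independent. -/
def MonomialModel : Prop :=
  ∀ (s : Finset (Γ →₀ ℕ)) (k : ℕ) (h ξ : (Γ →₀ ℕ) → Fin k → ℝ), (∀ κ j, 0 ≤ h κ j) →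
    ∃ L : ℂ, HasProd (fun μ : {μ : Γ →₀ ℕ // μ ≠ 0} =>
        ((J0 (2 * ‖∑ κ ∈ s, (coef κ μ : ℂ) * ∑ j, (ξ κ j : ℂ) * exp ((val μ * h κ j : ℝ) * I)‖) : ℝ) : ℂ)) L ∧
      Tendsto (charMean val s h ξ) atTop (𝓝 L)

/-- **The random model** for the functions `E(x^(a_1)), …, E(x^(a_n))`: they are asymptotically independent, and each
follows the random model with independent phases for the distinct ordinates. -/
def PowerModel {n : ℕ} (a : Fin n → ℝ) : Prop :=
  ∀ (k : ℕ) (h ξ : Fin n → Fin k → ℝ), (∀ i j, 0 ≤ h i j) →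
    ∃ L : ℂ, HasProd (fun p : Fin n × Γ => ((J0 (2 * (mult p.2 *
        ‖∑ j, (ξ p.1 j : ℂ) * exp ((a p.1 * p.2 * h p.1 j : ℝ) * I)‖ / p.2)) : ℝ) : ℂ)) L ∧
      Tendsto (charMean a Finset.univ h ξ) atTop (𝓝 L)

/-! ### proofs -/

open Pool.Agent.Q5.LI Pool.Agent.Q5.ZP Pool.Agent.Q5.AI
open Pool.Agent.Q5.AP (cut cut_of cut_le)

theorem main_eq (x : ℝ) : mainTerm x = ∫ v in (0 : ℝ)..Real.log x, wt v := by
  unfold mainTerm wt
  congr 1
  funext v
  rw [Real.sinh_eq]
  congr 1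
  ring

/-- the uncut error term -/
noncomputable def W (x : ℝ) : ℝ := Real.log x * dZ a1 1 0 A₀ x

theorem E_of {x : ℝ} (hx : Real.exp 1 < x) : E x = W x := by
  unfold E W dZ
  rw [if_pos hx, main_eq, Pl_1, Nat.cast_one, one_mul, zero_mul, sub_zero]
  rfl

theorem E_cut {x : ℝ} (hx : 0 < x) : E x = cut W (Real.log x) := by
  by_cases h : Real.exp 1 < x
  · have h1 : 1 < Real.log x := (Real.lt_log_iff_exp_lt hx).2 h
    rw [E_of h, cut_of W h1, Real.exp_log hx]
  · have h1 : Real.log x ≤ 1 := by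
      by_contra h2
      exact h ((Real.lt_log_iff_exp_lt hx).1 (not_le.1 h2))
    rw [cut_le W h1]
    unfold E
    rw [if_neg h]

theorem bounded_eq : BoundedMeanSquare ↔ Pool.Agent.Q5.BP.BSq (dZ a1 1 0 A₀) := by
  unfold BoundedMeanSquare Pool.Agent.Q5.BP.BSq
  refine exists_congr fun B => ?_
  have e : ∀ X : ℝ, Real.exp 1 ≤ X → ∫ x in Real.exp 1..X, E x ^ 2 / x =
      ∫ x in Real.exp 1..X, (Real.log x * dZ a1 1 0 A₀ x) ^ 2 / x := by
    intro X hX
    refine intervalIntegral.integral_congr_ae (Eventually.of_forall fun x hx => ?_)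
    rw [uIoc_of_le hX] at hx
    rw [E_of hx.1]
    rfl
  constructor
  · intro h
    filter_upwards [h, eventually_ge_atTop (Real.exp 1)] with X h1 h2
    rw [← e X h2]
    exact h1
  · intro h
    filter_upwards [h, eventually_ge_atTop (Real.exp 1)] with X h1 h2
    rw [e X h2]
    exact h1

theorem mean_iff {ι : Type} (a : ι → ℝ) (s : Finset ι) {k : ℕ} (h ξ : ι → Fin k → ℝ) (L : ℂ) :
    Tendsto (charMean a s h ξ) atTop (𝓝 L) ↔
      Tendsto (fun X : ℝ => (∫ x in Real.exp 1..X,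
        exp (((∑ i ∈ s, ∑ j, ξ i j * cut W (Real.log ((x * Real.exp (h i j)) ^ (a i))) : ℝ) : ℂ) * I) / x) /
          Real.log X) atTop (𝓝 L) := by
  refine tendsto_congr' ?_
  filter_upwards [eventually_ge_atTop (Real.exp 1)] with X hX
  unfold charMean
  congr 1
  refine intervalIntegral.integral_congr fun x hx => ?_
  rw [uIcc_of_le hX] at hx
  have hx0 : 0 < x := (Real.exp_pos 1).trans_le hx.1
  have e : ∀ i j, E ((x * Real.exp (h i j)) ^ (a i)) = cut W (Real.log ((x * Real.exp (h i j)) ^ (a i))) :=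
    fun i j => E_cut (by positivity)
  simp only [e]

theorem J0_eq (z : ℂ) : J0 (2 * ‖z‖) = bz z := by
  unfold J0 bz bt
  refine tsum_congr fun k => ?_
  rw [mul_div_cancel_left₀ _ two_ne_zero]

theorem mono_eq : (val : (Γ →₀ ℕ) → ℝ) = mono := rfl

theorem monomial_iff : MonomialModel ↔
    LabModel (multH riemannZeta) (fun κ : Γ →₀ ℕ => mono κ)
      (fun μ : {μ : Γ →₀ ℕ // μ ≠ 0} => mono (μ : Γ →₀ ℕ)) step (fun x => cut W (Real.log x)) := by
  unfold MonomialModel LabModel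
  refine forall_congr' fun s => forall_congr' fun k => forall_congr' fun h' => forall_congr' fun ξ =>
    forall_congr' fun hh => ?_
  refine exists_congr fun L => ?_
  rw [mean_iff]
  refine and_congr_left fun _ => ?_
  have e : ∀ μ : {μ : Γ →₀ ℕ // μ ≠ 0},
      J0 (2 * ‖∑ κ ∈ s, (coef κ μ : ℂ) * ∑ j, (ξ κ j : ℂ) * exp ((val μ * h' κ j : ℝ) * I)‖) =
      bz (∑ i ∈ s, dc (multH riemannZeta) (fun κ : Γ →₀ ℕ => mono κ)
        (fun μ : {μ : Γ →₀ ℕ // μ ≠ 0} => mono (μ : Γ →₀ ℕ)) step i μ * kf (h' i) (ξ i) (mono (μ : Γ →₀ ℕ))) := by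
    intro μ
    rw [J0_eq]
    congr 1
    refine Finset.sum_congr rfl fun κ _ => ?_
    congr 1
    unfold coef dc
    have h1 : (∃ γ : Γ, (μ : Γ →₀ ℕ) = κ + Finsupp.single γ 1) ↔ step κ μ := Iff.rfl
    by_cases h2 : step κ μ
    · rw [if_pos (h1.2 h2), if_pos h2]
      push_cast
      rfl
    · rw [if_neg fun h3 => h2 (h1.1 h3), if_neg h2]
      push_cast
      rfl
  simp only [e]

theorem power_iff {n : ℕ} (a : Fin n → ℝ) (ha : ∀ i, 0 < a i) : PowerModel a ↔
    LabModel (multH riemannZeta) a (fun p : Fin n × Γ => a p.1 * (p.2 : ℝ)) (fun i p => p.1 = i)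
      (fun x => cut W (Real.log x)) := by
  classical
  have e : ∀ (s : Finset (Fin n)) (k : ℕ) (h ξ : Fin n → Fin k → ℝ) (p : Fin n × Γ),
      bz (∑ i ∈ s, dc (multH riemannZeta) a (fun p : Fin n × Γ => a p.1 * (p.2 : ℝ)) (fun i p => p.1 = i) i p *
        kf (h i) (ξ i) (a p.1 * (p.2 : ℝ))) =
      J0 (2 * (mult p.2 * ‖∑ j, ((if p.1 ∈ s then ξ p.1 j else 0 : ℝ) : ℂ) *
        exp ((a p.1 * p.2 * h p.1 j : ℝ) * I)‖ / p.2)) := by
    intro s k h ξ p
    have hp0 : 0 < (p.2 : ℝ) := p.2.2.1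
    have e1 : (mult p.2 * ‖∑ j, ((if p.1 ∈ s then ξ p.1 j else 0 : ℝ) : ℂ) *
        exp ((a p.1 * p.2 * h p.1 j : ℝ) * I)‖ / p.2) =
        ‖(mult p.2 : ℂ) / ((p.2 : ℝ) : ℂ) * ∑ j, ((if p.1 ∈ s then ξ p.1 j else 0 : ℝ) : ℂ) *
          exp ((a p.1 * p.2 * h p.1 j : ℝ) * I)‖ := by
      rw [norm_mul, norm_div, Complex.norm_natCast, Complex.norm_real, Real.norm_of_nonneg hp0.le]
      ring
    rw [e1, J0_eq]
    congr 1
    by_cases hs : p.1 ∈ s
    · rw [Finset.sum_eq_single p.1]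
      · unfold dc
        rw [if_pos rfl, mul_div_cancel_left₀ _ (ha p.1).ne']
        simp only [if_pos hs]
        rfl
      · intro i _ hi
        unfold dc
        rw [if_neg (fun h1 => hi h1.symm), zero_mul]
      · intro h1
        exact absurd hs h1
    · simp only [if_neg hs]
      rw [Finset.sum_eq_zero]
      · simp
      · intro i hi
        unfold dc
        rw [if_neg (fun h1 => hs (by rw [h1]; exact hi)), zero_mul]
  constructor
  · intro hP s k h ξ hh
    obtain ⟨L, h1, h2⟩ := hP k h (fun i j => if i ∈ s then ξ i j else 0) hh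
    refine ⟨L, ?_, ?_⟩
    · simp only [e]
      exact h1
    · rw [mean_iff] at h2
      convert! h2 using 1
      funext X
      congr 1
      refine intervalIntegral.integral_congr fun x _ => ?_
      simp only
      congr 4
      rw [← Finset.sum_filter_add_sum_filter_not Finset.univ (fun i => i ∈ s)]
      have e2 : ∑ i with i ∉ s, ∑ j, (if i ∈ s then ξ i j else 0) *
          cut W (Real.log ((x * Real.exp (h i j)) ^ (a i))) = 0 := by
        refine Finset.sum_eq_zero fun i hi => Finset.sum_eq_zero fun j _ => ?_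
        rw [if_neg (Finset.mem_filter.1 hi).2, zero_mul]
      rw [e2, add_zero, Finset.filter_univ_mem]
      refine Finset.sum_congr rfl fun i hi => Finset.sum_congr rfl fun j _ => ?_
      rw [if_pos hi]
  · intro hM k h ξ hh
    obtain ⟨L, h1, h2⟩ := hM Finset.univ k h ξ hh
    refine ⟨L, ?_, (mean_iff _ _ _ _ _).2 h2⟩
    simp only [e, Finset.mem_univ, if_true] at h1
    exact h1

theorem set_eq (h : RiemannHypothesis) : Γ = {t : ℝ | 0 < t ∧ multH riemannZeta t ≠ 0} := by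
  ext t
  simp only [Γ, Set.mem_ofPred_eq]
  rw [mult_zero_iff]
  refine and_congr_right fun ht => ⟨?_, fun h1 => ⟨1 / 2, by push_cast; exact h1⟩⟩
  rintro ⟨β, hβ⟩
  have h1 : (β + t * I : ℂ) ≠ 1 := by
    intro h2
    have := congrArg Complex.im h2
    simp at this
    linarith
  have h2 : ¬∃ n : ℕ, (β + t * I : ℂ) = -2 * (n + 1) := by
    rintro ⟨n, hn⟩
    have := congrArg Complex.im hn
    simp at this
    linarith
  have h3 := h (β + t * I) hβ h2 h1
  simp at h3
  rw [h3] at hβ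
  push_cast at hβ
  convert! hβ using 2
  norm_num

/-- **Algebraic independence of the ordinates and the error term at powers of `x`.** -/
theorem result :
    -- `-ζ(1/2)` is a positive real number
    (0 < A₀ ∧ -riemannZeta (1 / 2) = (A₀ : ℂ)) ∧
    -- algebraic independence over `ℚ`
    (BoundedMeanSquare ∧ MonomialModel ↔
      RiemannHypothesis ∧ AlgebraicIndependent ℚ fun γ : Γ => (γ : ℝ)) ∧
    ((RiemannHypothesis → AlgebraicIndependent ℚ fun γ : Γ => (γ : ℝ)) ↔
      (BoundedMeanSquare → MonomialModel)) ∧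
    -- linear independence over a field of real numbers
    (∀ K : Subfield ℝ,
      (BoundedMeanSquare ∧ ∀ (n : ℕ) (a : Fin n → ℝ), (∀ i, 0 < a i ∧ a i ∈ K) → LinearIndependent ℚ a →
        PowerModel a) ↔
      RiemannHypothesis ∧ LinearIndepOn K id Γ) ∧
    -- algebraic independence implies the random model for the real algebraic powers
    (BoundedMeanSquare ∧ MonomialModel →
      ∀ (n : ℕ) (a : Fin n → ℝ), (∀ i, 0 < a i ∧ IsAlgebraic ℚ (a i)) → LinearIndependent ℚ a → PowerModel a) := by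
  obtain ⟨c, hc, hz⟩ := zeta_half
  have hA : A₀ = c := by
    have := congrArg Complex.re hz
    unfold A₀
    simpa using this
  have hA0 : 0 < A₀ := by rw [hA]; exact hc
  have hlead : LeadP riemannZeta 1 0 A₀ := leadP_zeta.2 ⟨rfl, rfl⟩
  obtain ⟨hW, t, -, p⟩ := errP roots_1 temp_1 hA0 (ρ := 0)
  have hB : BoundedMeanSquare ↔ RiemannHypothesis := by
    rw [bounded_eq, ← rh_iff]
    have h1 := t.out 0 1
    exact ⟨fun h => (h1.2 h).1, fun h => h1.1 ⟨h, hlead⟩⟩
  have hPar : RiemannHypothesis → ∃ V : ℝ,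
      Pool.Agent.Q5.AP.Par (fun u => (cut W u : ℂ)) (Pool.Agent.Q5.AP.cm (multH riemannZeta)) V := by
    intro h
    obtain ⟨V, -, P⟩ := p ⟨rh_iff.2 h, hlead⟩
    exact ⟨V, P⟩
  have h1 : RiemannHypothesis → (MonomialModel ↔ AlgebraicIndependent ℚ fun γ : Γ => (γ : ℝ)) := by
    intro h
    obtain ⟨V, P⟩ := hPar h
    rw [monomial_iff, algInd_iff]
    exact (lab_iff hW P (lab_mono (set_eq h))).symm
  have h2 : RiemannHypothesis → ∀ {n : ℕ} (a : Fin n → ℝ), (∀ i, 0 < a i) →
      (PowerModel a ↔ LinearIndependent ℚ fun p : Fin n × Γ => a p.1 * (p.2 : ℝ)) := by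
    intro h n a ha
    obtain ⟨V, P⟩ := hPar h
    rw [power_iff a ha]
    exact (lab_iff hW P (lab_prod (set_eq h) ha)).symm
  have h3 : RiemannHypothesis → ∀ K : Subfield ℝ,
      ((∀ (n : ℕ) (a : Fin n → ℝ), (∀ i, 0 < a i ∧ a i ∈ K) → LinearIndependent ℚ a → PowerModel a) ↔
        LinearIndepOn K id Γ) := by
    intro h K
    rw [kli_iff]
    refine forall_congr' fun n => forall_congr' fun a => forall_congr' fun ha => forall_congr' fun _ => ?_
    exact h2 h a fun i => (ha i).1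
  refine ⟨⟨hA0, by rw [hz, hA]⟩, ?_, ?_, ?_, ?_⟩
  · rw [hB]
    exact and_congr_right h1
  · rw [hB]
    exact forall_congr' fun h => (h1 h).symm
  · intro K
    rw [hB]
    exact and_congr_right fun h => h3 h K
  · rintro ⟨hb, hm⟩ n a ha hli
    have h := hB.1 hb
    have h4 := li_of_algInd ((h1 h).1 hm)
    exact (h3 h _).2 h4 n a (fun i => ⟨(ha i).1, mem_algebraicClosure_iff.2 (ha i).2⟩) hli

end Pool.Agent.Results.MP_ec260d_nt.PowersOfX
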